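import Pool.Agent.helper27.PC2.Stmt2

/-!
# PC project, module SIG: classes of `W(D_n)` up to the diagram automorphism
-/

namespace Pool.Agent.helper27.PC

open Module Polynomial

theorem SIG_comm {n i : ℕ} (hi : 2 ≤ i) : g n 0 * g n i = g n i * g n 0 := by
  unfold g
  split_ifs with h0 h1
  · apply Subtype.ext
    show genPerm n ⟨0, h0⟩ * genPerm n ⟨i, h1⟩ = genPerm n ⟨i, h1⟩ * genPerm n ⟨0, h0⟩
    have h2 : genPerm n ⟨0, h0⟩ = Equiv.swap ((⟨0, h0⟩ : Fin n), true) ((⟨0, h0⟩ : Fin n), false) := by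
      unfold genPerm
      rw [if_pos rfl]
    have h3 : ∀ b : Bool, genPerm n ⟨i, h1⟩ ((⟨0, h0⟩ : Fin n), b) = ((⟨0, h0⟩ : Fin n), b) := by
      intro b
      unfold genPerm
      rw [if_neg (by simp; omega)]
      show (Equiv.swap _ _ (⟨0, h0⟩ : Fin n), b) = _
      rw [Equiv.swap_apply_of_ne_of_ne]
      · intro h
        have := congrArg Fin.val h
        simp at this
        omega
      · intro h
        have := congrArg Fin.val h
        simp at this
        omega
    rw [h2, Equiv.mul_swap_eq_swap_mul, h3, h3]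
  · rw [mul_one, one_mul]
  · rw [mul_one, one_mul]
  · rfl

theorem SIG_sq (n : ℕ) : g n 0 * g n 0 = 1 := by
  have h := NF_g_inv (n := n) 0
  calc g n 0 * g n 0 = (g n 0)⁻¹ * g n 0 := by rw [h]
    _ = 1 := inv_mul_cancel _

instance SIG_normal (n : ℕ) : (WD n).Normal := MonoidHom.normal_ker _

/-- conjugation by `s_0` -/
noncomputable def SIG_s (n : ℕ) : WD n ≃* WD n := MulAut.conjNormal (g n 0)

theorem SIG_s_coe (n : ℕ) (u : WD n) : ((SIG_s n u : WD n) : W n) = g n 0 * u * g n 0 := by
  unfold SIG_s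
  rw [MulAut.conjNormal_apply, NF_g_inv]

theorem SIG_s_s (n : ℕ) (u : WD n) : SIG_s n (SIG_s n u) = u := by
  apply Subtype.ext
  rw [SIG_s_coe, SIG_s_coe]
  calc g n 0 * (g n 0 * (u : W n) * g n 0) * g n 0 = (g n 0 * g n 0) * u * (g n 0 * g n 0) := by group
    _ = u := by rw [SIG_sq, one_mul, mul_one]

theorem SIG_gen {n : ℕ} (hn : 2 ≤ n) (i : Fin n) :
    SIG_s n (genD n i) = genD n (Equiv.swap (⟨0, by omega⟩ : Fin n) ⟨1, by omega⟩ i) := by
  apply Subtype.ext
  rw [SIG_s_coe]
  by_cases h0 : i = ⟨0, by omega⟩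
  · subst h0
    rw [Equiv.swap_apply_left]
    show g n 0 * (if (0 : ℕ) = 0 then g n 0 * g n 1 * g n 0 else gen n ⟨0, by omega⟩) * g n 0 =
      (if (1 : ℕ) = 0 then g n 0 * g n 1 * g n 0 else gen n ⟨1, by omega⟩)
    rw [if_pos rfl, if_neg one_ne_zero]
    calc g n 0 * (g n 0 * g n 1 * g n 0) * g n 0 = (g n 0 * g n 0) * g n 1 * (g n 0 * g n 0) := by
          group
      _ = g n 1 := by rw [SIG_sq, one_mul, mul_one]
      _ = gen n ⟨1, by omega⟩ := by unfold g; rw [dif_pos (by omega)]
  · by_cases h1 : i = ⟨1, by omega⟩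
    · subst h1
      rw [Equiv.swap_apply_right]
      show g n 0 * (if (1 : ℕ) = 0 then g n 0 * g n 1 * g n 0 else gen n ⟨1, by omega⟩) * g n 0 =
        (if (0 : ℕ) = 0 then g n 0 * g n 1 * g n 0 else gen n ⟨0, by omega⟩)
      rw [if_pos rfl, if_neg one_ne_zero]
      have : gen n ⟨1, by omega⟩ = g n 1 := by unfold g; rw [dif_pos (by omega)]
      rw [this]
    · rw [Equiv.swap_apply_of_ne_of_ne h0 h1]
      have h0' : i.val ≠ 0 := fun h => h0 (Fin.ext h)
      have h1' : i.val ≠ 1 := fun h => h1 (Fin.ext h)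
      show g n 0 * (if i.val = 0 then g n 0 * g n 1 * g n 0 else gen n i) * g n 0 =
        (if i.val = 0 then g n 0 * g n 1 * g n 0 else gen n i)
      rw [if_neg h0']
      have h2 : gen n i = g n i.val := by unfold g; rw [dif_pos i.isLt]
      rw [h2, SIG_comm (by omega), mul_assoc, SIG_sq, mul_one]

theorem SIG_word {n : ℕ} (hn : 2 ≤ n) (l : List (Fin n)) :
    ((l.map (Equiv.swap (⟨0, by omega⟩ : Fin n) ⟨1, by omega⟩)).map (genD n)).prod =
      SIG_s n ((l.map (genD n)).prod) := by
  rw [map_list_prod, List.map_map, List.map_map]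
  congr 1
  apply List.map_congr_left
  intro i _
  exact (SIG_gen hn i).symm

theorem SIG_glen {n : ℕ} (hn : 2 ≤ n) (u : WD n) : glen (genD n) (SIG_s n u) = glen (genD n) u := by
  unfold glen
  congr 1
  ext k
  constructor
  · rintro ⟨l, h1, h2⟩
    refine ⟨l.map (Equiv.swap (⟨0, by omega⟩ : Fin n) ⟨1, by omega⟩), by simpa using h1, ?_⟩
    rw [SIG_word hn, h2, SIG_s_s]
  · rintro ⟨l, h1, h2⟩
    refine ⟨l.map (Equiv.swap (⟨0, by omega⟩ : Fin n) ⟨1, by omega⟩), by simpa using h1, ?_⟩
    rw [SIG_word hn, h2]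

theorem SIG_sign0 {n : ℕ} (hn : 0 < n) :
    Equiv.Perm.sign ((g n 0 : W n) : Equiv.Perm (Fin n × Bool)) = -1 := by
  unfold g
  rw [dif_pos hn]
  show Equiv.Perm.sign (genPerm n ⟨0, hn⟩) = -1
  unfold genPerm
  rw [if_pos rfl]
  exact Equiv.Perm.sign_swap (by simp)

/-- the sign as a homomorphism on `W(B_n)` -/
noncomputable def SIG_sgn (n : ℕ) : W n →* ℤˣ := Equiv.Perm.sign.comp (W n).subtype

theorem SIG_sgn_word {n : ℕ} (hn : 0 < n) (l : List ℕ) :
    SIG_sgn n (l.map (g n)).prod = (-1) ^ l.count 0 := by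
  induction l with
  | nil => simp
  | cons a l ih =>
    rw [List.map_cons, List.prod_cons, map_mul, ih]
    cases a with
    | zero =>
      have h : SIG_sgn n (g n 0) = -1 := SIG_sign0 hn
      rw [h, List.count_cons_self, pow_succ, mul_comm]
    | succ i =>
      have h : SIG_sgn n (g n (i + 1)) = 1 := sign_g_succ n i
      rw [h, one_mul, List.count_cons_of_ne (by omega)]

theorem SIG_count_std (k : ℕ) (β : List ℕ) : (stdWord k β).count 0 = β.length := by
  induction β generalizing k with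
  | nil => simp [stdWord]
  | cons a β ih =>
    unfold stdWord blockWord
    rw [List.count_append, List.count_append, ih, List.count_reverse,
      List.count_eq_one_of_mem List.nodup_range (List.mem_range.2 (Nat.succ_pos k)),
      List.count_eq_zero_of_not_mem]
    · simp only [List.length_cons]
      omega
    · intro h
      rw [List.mem_range'_1] at h
      omega

theorem SIG_count_pos (k : ℕ) (α : List ℕ) : (posWord k α).count 0 = 0 := by
  induction α generalizing k with
  | nil => simp [posWord]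
  | cons a α ih =>
    unfold posWord
    rw [List.count_append, ih, List.count_eq_zero_of_not_mem]
    intro h
    rw [List.mem_range'_1] at h
    omega

theorem SIG (hL : LEN2D_stmt) : SIG_stmt := by
  intro n w β α hn hT hc
  have hn0 : 0 < n := by omega
  have heven : Even β.length := by
    obtain ⟨x, hx⟩ := isConj_iff.1 hc
    have h1 : SIG_sgn n (std2 n β α) = 1 := by
      rw [← hx, map_mul, map_mul, map_inv, mul_right_comm, mul_inv_cancel, one_mul]
      exact mem_WD.1 w.2
    unfold std2 word2 at h1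
    rw [SIG_sgn_word hn0, List.count_append, SIG_count_std, SIG_count_pos, add_zero] at h1
    by_contra hodd
    rw [Nat.not_even_iff_odd] at hodd
    rw [hodd.neg_one_pow] at h1
    exact absurd h1 (by decide)
  refine ⟨heven, ?_⟩
  intro H _ _ T hH
  obtain ⟨hco, _, hmin⟩ := hL n β α hn hT heven
  obtain ⟨x, hx⟩ := isConj_iff.1 hc
  rw [← hco] at hx
  by_cases hxD : x ∈ WD n
  · refine ⟨T, hH, stdD n β α, ?_, hmin, rfl⟩
    refine isConj_iff.2 ⟨⟨x, hxD⟩, ?_⟩
    apply Subtype.ext
    exact hx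
  · have hy : g n 0 * x ∈ WD n := by
      have h1 : SIG_sgn n x = -1 := by
        rcases Int.units_eq_one_or (SIG_sgn n x) with h | h
        · exact absurd (mem_WD.2 h) hxD
        · exact h
      have h2 : SIG_sgn n (g n 0) = -1 := SIG_sign0 hn0
      have h3 : SIG_sgn n (g n 0 * x) = 1 := by
        rw [map_mul, h1, h2]
        decide
      exact mem_WD.2 h3
    refine ⟨T.reindex (SIG_s n).symm.toEquiv, ?_, SIG_s n (stdD n β α), ?_, ?_, ?_⟩
    · have hT' : ∀ u, T.reindex (SIG_s n).symm.toEquiv u = T (SIG_s n u) := by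
        intro u
        rw [Basis.reindex_apply]
        rfl
      refine ⟨fun i => ?_, fun u u' h => ?_⟩
      · rw [hT', SIG_gen hn]
        exact hH.quad _
      · rw [hT', hT', hT', map_mul]
        refine hH.mul _ _ ?_
        rw [← map_mul, SIG_glen hn, SIG_glen hn, SIG_glen hn, h]
    · refine isConj_iff.2 ⟨⟨g n 0 * x, hy⟩, ?_⟩
      apply Subtype.ext
      rw [SIG_s_coe, ← hx]
      show g n 0 * x * (w : W n) * (g n 0 * x)⁻¹ = _
      rw [mul_inv_rev, NF_g_inv]
      group
    · intro u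
      have h1 := hmin (SIG_s n u)
      rw [SIG_glen hn]
      refine le_trans h1 (le_of_eq ?_)
      rw [← SIG_glen hn, map_mul, map_mul, map_inv, SIG_s_s]
    · have hT' : ∀ u, T.reindex (SIG_s n).symm.toEquiv u = T (SIG_s n u) := by
        intro u
        rw [Basis.reindex_apply]
        rfl
      unfold GN
      rw [hT', hT', map_inv (SIG_s n), SIG_glen hn]

end Pool.Agent.helper27.PC
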